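import Mathlib

/-! Sums of `log |u - c j|` over arithmetic progressions, compared with integrals. -/

open Finset

namespace Pool.Agent.H102R2.Z5

noncomputable section

/-- `Psi' = log |u|` -/
def Psi (u : ℝ) : ℝ := u * Real.log u - u

/-- `G2' = Psi` -/
def G2 (z : ℝ) : ℝ := z ^ 2 / 2 * Real.log z - 3 / 4 * z ^ 2

lemma Psi_neg (u : ℝ) : Psi (-u) = -Psi u := by
  unfold Psi; rw [Real.log_neg_eq_log]; ring

lemma Psi_zero : Psi 0 = 0 := by unfold Psi; simp

lemma G2_zero : G2 0 = 0 := by unfold G2; simp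

lemma G2_neg (z : ℝ) : G2 (-z) = G2 z := by
  unfold G2; rw [Real.log_neg_eq_log]; ring

/-- convexity on the positive axis -/
lemma Psi_sub_ge {x y : ℝ} (hx : 0 < x) (hy : 0 < y) : (y - x) * Real.log x ≤ Psi y - Psi x := by
  unfold Psi
  have h1 : Real.log (x / y) ≤ x / y - 1 := Real.log_le_sub_one_of_pos (div_pos hx hy)
  rw [Real.log_div hx.ne' hy.ne'] at h1
  have h2 : y * (Real.log x - Real.log y) ≤ y * (x / y - 1) := mul_le_mul_of_nonneg_left h1 hy.le
  have h3 : y * (x / y - 1) = x - y := by field_simp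
  rw [h3] at h2
  nlinarith

lemma Psi_sub_le {x y : ℝ} (hx : 0 < x) (hy : 0 < y) : Psi y - Psi x ≤ (y - x) * Real.log y := by
  have := Psi_sub_ge hy hx
  nlinarith

lemma Psi_ge_neg_one {y : ℝ} (hy : 0 ≤ y) : -1 ≤ Psi y := by
  rcases hy.eq_or_lt with h | h
  · rw [← h, Psi_zero]; norm_num
  · have h1 := Psi_sub_ge (x := 1) (y := y) one_pos h
    rw [Real.log_one, mul_zero] at h1
    have h2 : Psi 1 = -1 := by unfold Psi; simp
    linarith

lemma Psi_nonpos {y : ℝ} (hy : 0 ≤ y) (h1 : y ≤ 1) : Psi y ≤ 0 := by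
  unfold Psi
  have := Real.log_nonpos hy h1
  nlinarith

/-- on `0 ≤ x ≤ y` the function `Psi` decreases by at most `1` -/
lemma Psi_mono_pos {x y : ℝ} (hx : 0 ≤ x) (hxy : x ≤ y) : -1 ≤ Psi y - Psi x := by
  rcases le_or_gt 1 x with h | h
  · have h1 := Psi_sub_ge (x := x) (y := y) (by linarith) (by linarith)
    have h2 : 0 ≤ (y - x) * Real.log x := mul_nonneg (by linarith) (Real.log_nonneg h)
    linarith
  · have h1 := Psi_nonpos hx h.le
    have h2 := Psi_ge_neg_one (hx.trans hxy)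
    linarith

lemma Psi_sub_ge_neg_two {x y : ℝ} (hxy : x ≤ y) : -2 ≤ Psi y - Psi x := by
  rcases le_or_gt 0 x with h | h
  · have := Psi_mono_pos h hxy; linarith
  · rcases le_or_gt y 0 with h' | h'
    · have := Psi_mono_pos (x := -y) (y := -x) (by linarith) (by linarith)
      rw [Psi_neg, Psi_neg] at this
      linarith
    · have h1 := Psi_ge_neg_one h'.le
      have h2 := Psi_ge_neg_one (y := -x) (by linarith)
      rw [Psi_neg] at h2
      linarith

lemma Psi_le_mul_log {x W : ℝ} (hx : 0 ≤ x) (h : x ≤ W) : Psi x ≤ x * Real.log W := by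
  rcases hx.eq_or_lt with h0 | h0
  · rw [← h0, Psi_zero]; simp
  · unfold Psi
    have : Real.log x ≤ Real.log W := Real.log_le_log h0 h
    nlinarith

lemma Psi_sub_le_log {x y W : ℝ} (hxy : x ≤ y) (hx : -W ≤ x) (hy : y ≤ W) :
    Psi y - Psi x ≤ (y - x) * Real.log W := by
  rcases lt_or_ge 0 x with h | h
  · have h1 := Psi_sub_le (x := x) (y := y) h (by linarith)
    have h2 : (y - x) * Real.log y ≤ (y - x) * Real.log W :=
      mul_le_mul_of_nonneg_left (Real.log_le_log (by linarith) hy) (by linarith)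
    linarith
  · rcases lt_or_ge y 0 with h' | h'
    · have h1 := Psi_sub_le (x := -y) (y := -x) (by linarith) (by linarith)
      rw [Psi_neg, Psi_neg] at h1
      have h2 : (-x - -y) * Real.log (-x) ≤ (-x - -y) * Real.log W :=
        mul_le_mul_of_nonneg_left (Real.log_le_log (by linarith) (by linarith)) (by linarith)
      linarith
    · have h1 := Psi_le_mul_log (x := y) (W := W) h' hy
      have h2 := Psi_le_mul_log (x := -x) (W := W) (by linarith) (by linarith)
      rw [Psi_neg] at h2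
      nlinarith

lemma abs_Psi_sub_le {x y W : ℝ} (hW : 1 ≤ W) (hx : |x| ≤ W) (hy : |y| ≤ W) :
    |Psi y - Psi x| ≤ |y - x| * Real.log W + 2 := by
  rw [abs_le] at hx hy
  have hl := Real.log_nonneg hW
  rcases le_total x y with h | h
  · rw [abs_le, abs_of_nonneg (by linarith : (0:ℝ) ≤ y - x)]
    have h1 := Psi_sub_ge_neg_two h
    have h2 := Psi_sub_le_log h hx.1 hy.2
    have h3 : 0 ≤ (y - x) * Real.log W := mul_nonneg (by linarith) hl
    constructor <;> linarith
  · rw [abs_le, abs_of_nonpos (by linarith : y - x ≤ 0)]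
    have h1 := Psi_sub_ge_neg_two h
    have h2 := Psi_sub_le_log h hy.1 hx.2
    have h3 : 0 ≤ (x - y) * Real.log W := mul_nonneg (by linarith) hl
    constructor <;> nlinarith

/-- one-sided sums -/
lemma sum_log_pos (z : ℝ) (hz : 1 ≤ z) (c : ℝ) (hc : 1 ≤ c) (N : ℕ) :
    c * ∑ j ∈ range N, Real.log (z + c * j) ≤ Psi (z + c * N) - Psi z ∧
    Psi (z + c * N) - Psi z ≤
      c * ∑ j ∈ range N, Real.log (z + c * j) + c * (Real.log (z + c * N) - Real.log z) := by
  induction N with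
  | zero => simp
  | succ N ih =>
    rw [Finset.sum_range_succ]
    have hN : (0:ℝ) ≤ c * N := by positivity
    have h1 := Psi_sub_ge (x := z + c * N) (y := z + c * (N + 1 : ℕ)) (by linarith)
      (by push_cast; nlinarith)
    have h2 := Psi_sub_le (x := z + c * N) (y := z + c * (N + 1 : ℕ)) (by linarith)
      (by push_cast; nlinarith)
    have h3 : z + c * ((N + 1 : ℕ) : ℝ) - (z + c * N) = c := by push_cast; ring
    rw [h3] at h1 h2
    constructor
    · nlinarith [ih.1]
    · nlinarith [ih.2]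

/-- case B: all terms nonpositive -/
lemma brickB (u : ℤ) (hu : u ≤ 0) (c : ℕ) (hc : 1 ≤ c) (N : ℕ) (W : ℝ)
    (hW : |(u : ℝ)| + c * N + c + 1 ≤ W) :
    |∑ j ∈ range N, Real.log ((u : ℝ) - c * j) - (Psi u - Psi ((u : ℝ) - c * N)) / c| ≤
      2 * Real.log W + 1 := by
  have hc1 : (1:ℝ) ≤ c := by exact_mod_cast hc
  have hu' : (u : ℝ) ≤ 0 := by exact_mod_cast hu
  have hcN : (0:ℝ) ≤ (c : ℝ) * N := by positivity
  have hW1 : 1 ≤ W := by have := abs_nonneg (u : ℝ); linarith
  have hlW : 0 ≤ Real.log W := Real.log_nonneg hW1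
  have hflip : ∀ v : ℝ, ∀ j : ℕ, Real.log (v - c * j) = Real.log (-v + c * j) := by
    intro v j
    rw [← Real.log_neg_eq_log]; congr 1; ring
  rcases lt_or_eq_of_le hu with h | h
  · -- u ≤ -1
    have hz : (1:ℝ) ≤ -(u : ℝ) := by
      have : u ≤ -1 := by omega
      have : (u : ℝ) ≤ -1 := by exact_mod_cast this
      linarith
    obtain ⟨h1, h2⟩ := sum_log_pos (-(u : ℝ)) hz c hc1 N
    have e1 : ∑ j ∈ range N, Real.log ((u : ℝ) - c * j) =
        ∑ j ∈ range N, Real.log (-(u : ℝ) + c * j) :=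
      Finset.sum_congr rfl (fun j _ => hflip _ _)
    have e2 : Psi u - Psi ((u : ℝ) - c * N) = Psi (-(u : ℝ) + c * N) - Psi (-(u : ℝ)) := by
      rw [Psi_neg, show -(u : ℝ) + c * N = -((u : ℝ) - c * N) by ring, Psi_neg]; ring
    rw [e1, e2]
    set T := ∑ j ∈ range N, Real.log (-(u : ℝ) + c * j)
    set D := Psi (-(u : ℝ) + c * N) - Psi (-(u : ℝ))
    have h3 : T ≤ D / c := by rw [le_div_iff₀ (by linarith)]; linarith
    have h4 : D / c ≤ T + (Real.log (-(u : ℝ) + c * N) - Real.log (-(u : ℝ))) := by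
      rw [div_le_iff₀ (by linarith)]; linarith
    have h5 : 0 ≤ Real.log (-(u : ℝ)) := Real.log_nonneg hz
    have h6 : Real.log (-(u : ℝ) + c * N) ≤ Real.log W := by
      apply Real.log_le_log (by linarith)
      rw [abs_of_nonpos hu'] at hW; linarith
    rw [abs_le]; constructor <;> linarith
  · -- u = 0
    subst h
    simp only [Int.cast_zero, zero_sub, Psi_zero, Psi_neg, sub_neg_eq_add, zero_add]
    cases N with
    | zero => simp [Psi_zero]; linarith
    | succ N =>
      rw [Finset.sum_range_succ']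
      simp only [Nat.cast_zero, mul_zero, neg_zero, Real.log_zero, add_zero]
      obtain ⟨h1, h2⟩ := sum_log_pos (c : ℝ) hc1 c hc1 N
      have e1 : ∑ j ∈ range N, Real.log (-((c : ℝ) * ((j + 1 : ℕ) : ℝ))) =
          ∑ j ∈ range N, Real.log ((c : ℝ) + c * j) := by
        apply Finset.sum_congr rfl; intro j _
        rw [Real.log_neg_eq_log]; congr 1; push_cast; ring
      have e2 : (c : ℝ) + c * N = c * ((N + 1 : ℕ) : ℝ) := by push_cast; ring
      rw [e1]
      rw [e2] at h1 h2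
      set T := ∑ j ∈ range N, Real.log ((c : ℝ) + c * j)
      have h3 : T ≤ (Psi (c * ((N + 1 : ℕ) : ℝ)) - Psi c) / c := by
        rw [le_div_iff₀ (by linarith)]; linarith
      have h4 : (Psi (c * ((N + 1 : ℕ) : ℝ)) - Psi c) / c ≤
          T + (Real.log (c * ((N + 1 : ℕ) : ℝ)) - Real.log c) := by
        rw [div_le_iff₀ (by linarith)]; linarith
      rw [sub_div] at h3 h4
      have h5 : Psi (c : ℝ) / c = Real.log c - 1 := by
        unfold Psi; field_simp
      rw [h5] at h3 h4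
      have h6 : Real.log (c * ((N + 1 : ℕ) : ℝ)) ≤ Real.log W := by
        apply Real.log_le_log (by positivity)
        simp only [Int.cast_zero, abs_zero, zero_add] at hW
        linarith
      have h7 : 0 ≤ Real.log (c : ℝ) := Real.log_nonneg hc1
      have h8 : Real.log (c : ℝ) ≤ Real.log (c * ((N + 1 : ℕ) : ℝ)) := by
        apply Real.log_le_log (by linarith)
        push_cast
        nlinarith [Nat.cast_nonneg (α := ℝ) N]
      rw [abs_le]; constructor <;> linarith

/-- case A: all terms positive -/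
lemma brickA (u : ℤ) (c : ℕ) (hc : 1 ≤ c) (N : ℕ) (hN : 1 ≤ N) (hu : (c : ℤ) * (N - 1) + 1 ≤ u)
    (W : ℝ) (hW : |(u : ℝ)| + c * N + c + 1 ≤ W) :
    |∑ j ∈ range N, Real.log ((u : ℝ) - c * j) - (Psi u - Psi ((u : ℝ) - c * N)) / c| ≤
      2 * Real.log W + 2 := by
  have hc1 : (1:ℝ) ≤ c := by exact_mod_cast hc
  have hcN : (0:ℝ) ≤ (c : ℝ) * N := by positivity
  have hW1 : 1 ≤ W := by have := abs_nonneg (u : ℝ); linarith
  have hlW : 0 ≤ Real.log W := Real.log_nonneg hW1
  set z : ℝ := (u : ℝ) - c * (N - 1) with hz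
  have hz1 : 1 ≤ z := by
    have : ((((c : ℤ) * (N - 1) + 1 : ℤ)) : ℝ) ≤ (u : ℝ) := by exact_mod_cast hu
    push_cast at this
    rw [hz]; linarith
  have hN1 : (1:ℝ) ≤ N := by exact_mod_cast hN
  have hu1 : 1 ≤ (u : ℝ) := by nlinarith
  rw [abs_of_nonneg (by linarith : (0:ℝ) ≤ u)] at hW
  obtain ⟨h1, h2⟩ := sum_log_pos z hz1 c hc1 N
  have e1 : ∑ j ∈ range N, Real.log ((u : ℝ) - c * j) = ∑ j ∈ range N, Real.log (z + c * j) := by
    rw [← Finset.sum_range_reflect]
    apply Finset.sum_congr rfl; intro j hj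
    rw [Finset.mem_range] at hj
    congr 1
    have : ((N - 1 - j : ℕ) : ℝ) = N - 1 - j := by
      rw [Nat.cast_sub (by omega), Nat.cast_sub (by omega)]; push_cast; ring
    rw [this, hz]; ring
  have e2 : z + c * N = u + c := by rw [hz]; ring
  have e3 : (u : ℝ) - c * N = z - c := by rw [hz]; ring
  rw [e1, e3]
  rw [e2] at h1 h2
  set T := ∑ j ∈ range N, Real.log (z + c * j)
  have hX1 := Psi_sub_ge (x := (u : ℝ)) (y := (u : ℝ) + c) (by linarith) (by linarith)
  have hX2 := Psi_sub_le (x := (u : ℝ)) (y := (u : ℝ) + c) (by linarith) (by linarith)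
  have hX3 : (0:ℝ) ≤ Real.log u := Real.log_nonneg hu1
  have hX4 : Real.log ((u : ℝ) + c) ≤ Real.log W := Real.log_le_log (by linarith) (by linarith)
  have hY1 := Psi_sub_ge_neg_two (x := z - c) (y := z) (by linarith)
  have hY2 := Psi_sub_le_log (x := z - c) (y := z) (W := W) (by linarith) (by linarith)
    (by nlinarith)
  have hz0 : 0 ≤ Real.log z := Real.log_nonneg hz1
  have hc0 : (0:ℝ) < c := by linarith
  have e4 : T - (Psi u - Psi (z - c)) / c =
      (T - (Psi (u + c) - Psi z) / c) + ((Psi (u + c) - Psi u) / c - (Psi z - Psi (z - c)) / c) := by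
    field_simp; ring
  rw [e4]
  have f1 : T - (Psi (u + c) - Psi z) / c ≤ 0 := by
    rw [sub_nonpos, le_div_iff₀ hc0]; linarith
  have f2 : -Real.log W ≤ T - (Psi (u + c) - Psi z) / c := by
    have : (Psi (u + c) - Psi z) / c ≤ T + (Real.log (u + c) - Real.log z) := by
      rw [div_le_iff₀ hc0]; linarith
    linarith
  have f3 : 0 ≤ (Psi (u + c) - Psi u) / c := by
    apply div_nonneg _ hc0.le
    have : 0 ≤ ((u : ℝ) + c - u) * Real.log u := mul_nonneg (by linarith) hX3
    linarith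
  have f4 : (Psi (u + c) - Psi u) / c ≤ Real.log W := by
    rw [div_le_iff₀ hc0]
    have : ((u : ℝ) + c - u) * Real.log (u + c) ≤ Real.log W * c := by
      rw [add_sub_cancel_left]; nlinarith
    linarith
  have f5 : -2 ≤ (Psi z - Psi (z - c)) / c := by
    rw [le_div_iff₀ hc0]; nlinarith
  have f6 : (Psi z - Psi (z - c)) / c ≤ Real.log W := by
    rw [div_le_iff₀ hc0]
    have : (z - (z - c)) * Real.log W = Real.log W * c := by ring
    linarith
  rw [abs_le]; constructor <;> linarith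

/-- the brick lemma. Real.log has `log 0 = 0`, so a vanishing factor is skipped. -/
theorem brick (u : ℤ) (c : ℕ) (hc : 1 ≤ c) (N : ℕ) (W : ℝ) (hW : |(u : ℝ)| + c * N + c + 1 ≤ W) :
    |∑ j ∈ range N, Real.log ((u : ℝ) - c * j) - (Psi u - Psi ((u : ℝ) - c * N)) / c| ≤
      4 * Real.log W + 3 := by
  have hc1 : (1:ℝ) ≤ c := by exact_mod_cast hc
  have hcN : (0:ℝ) ≤ (c : ℝ) * N := by positivity
  have hW1 : 1 ≤ W := by have := abs_nonneg (u : ℝ); linarith
  have hlW : 0 ≤ Real.log W := Real.log_nonneg hW1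
  rcases le_or_gt u 0 with h | h
  · have := brickB u h c hc N W hW; linarith
  rcases Nat.eq_zero_or_pos N with h0 | h0
  · subst h0; simp; linarith
  rcases le_or_gt ((c : ℤ) * (N - 1) + 1) u with h' | h'
  · have := brickA u c hc N h0 h' W hW; linarith
  -- 0 < u ≤ c (N-1)
  obtain ⟨U, rfl⟩ : ∃ U : ℕ, u = U := ⟨u.toNat, by omega⟩
  -- q = ceil (U / c)
  set q := (U + c - 1) / c with hq
  have hcp : 0 < c := by omega
  have hq1 : c * (q - 1) + 1 ≤ U ∧ U ≤ c * q ∧ 1 ≤ q := by
    have h3 := Nat.div_add_mod (U + c - 1) c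
    have h4 := Nat.mod_lt (U + c - 1) hcp
    rw [← hq] at h3
    have hU : 1 ≤ U := by omega
    have h5 : 1 ≤ q := by
      rw [hq]
      exact (Nat.one_le_div_iff hcp).2 (by omega)
    obtain ⟨q', hq'⟩ : ∃ q', q = q' + 1 := ⟨q - 1, by omega⟩
    rw [hq'] at h3 ⊢
    have h6 : c * (q' + 1) = c * q' + c := by ring
    refine ⟨?_, ?_, by omega⟩
    · rw [Nat.add_sub_cancel]; omega
    · omega
  have hqN : q ≤ N := by
    by_contra hcon
    push Not at hcon
    have h3 : c * N ≤ c * (q - 1) := Nat.mul_le_mul_left c (by omega)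
    have h4 : (U : ℤ) < (c : ℤ) * (N - 1) + 1 := h'
    have h5 : ((c * (q - 1) + 1 : ℕ) : ℤ) ≤ U := by exact_mod_cast hq1.1
    have h6 : ((c * N : ℕ) : ℤ) ≤ ((c * (q - 1) : ℕ) : ℤ) := by exact_mod_cast h3
    push_cast at h5 h6
    have h7 : (0:ℤ) < c := by exact_mod_cast hcp
    nlinarith
  obtain ⟨N', rfl⟩ : ∃ N', N = q + N' := ⟨N - q, by omega⟩
  rw [Finset.sum_range_add]
  have hA := brickA (U : ℤ) c hc q hq1.2.2 (by
    have h5 : ((c * (q - 1) + 1 : ℕ) : ℤ) ≤ U := by exact_mod_cast hq1.1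
    push_cast [Nat.cast_sub hq1.2.2] at h5
    exact h5) W (by
    push_cast at hW ⊢
    have : (0:ℝ) ≤ (c : ℝ) * N' := by positivity
    linarith)
  have hB := brickB ((U : ℤ) - c * q) (by
    have : ((U : ℕ) : ℤ) ≤ ((c * q : ℕ) : ℤ) := by exact_mod_cast hq1.2.1
    push_cast at this
    linarith) c hc N' W (by
    have h8 : |(((U : ℤ) - c * q : ℤ) : ℝ)| ≤ c * q := by
      rw [abs_le]
      have h9 : (U : ℝ) ≤ c * q := by exact_mod_cast hq1.2.1
      have h10 : (0:ℝ) ≤ U := Nat.cast_nonneg _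
      push_cast
      constructor <;> linarith
    have h9 := abs_nonneg (((U : ℤ)) : ℝ)
    push_cast at hW h8 h9 ⊢
    linarith)
  have e1 : ∑ x ∈ range N', Real.log (((U : ℤ) : ℝ) - c * ((q + x : ℕ) : ℝ)) =
      ∑ x ∈ range N', Real.log ((((U : ℤ) - c * q : ℤ) : ℝ) - c * x) := by
    apply Finset.sum_congr rfl; intro x _
    congr 1; push_cast; ring
  have e2 : (((U : ℤ) - c * q : ℤ) : ℝ) - c * N' = ((U : ℤ) : ℝ) - c * ((q + N' : ℕ) : ℝ) := by
    push_cast; ring
  have e3 : (((U : ℤ) - c * q : ℤ) : ℝ) = ((U : ℤ) : ℝ) - c * q := by push_cast; ring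
  rw [e1]
  rw [e2] at hB
  have e4 : (Psi ((U : ℤ) : ℝ) - Psi (((U : ℤ) : ℝ) - c * ((q + N' : ℕ) : ℝ))) / c =
      (Psi ((U : ℤ) : ℝ) - Psi (((U : ℤ) : ℝ) - c * q)) / c +
      (Psi (((U : ℤ) - c * q : ℤ) : ℝ) - Psi (((U : ℤ) : ℝ) - c * ((q + N' : ℕ) : ℝ))) / c := by
    rw [e3]; ring
  rw [e4]
  rw [abs_le] at hA hB ⊢
  constructor <;> linarith [hA.1, hA.2, hB.1, hB.2]

/-! ### outer sums -/

lemma G2_hasDerivAt (z : ℝ) : HasDerivAt G2 (Psi z) z := by
  have hne : ∀ y : ℝ, y ≠ 0 → HasDerivAt G2 (Psi y) y := by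
    intro y hy
    have h1 : HasDerivAt (fun z : ℝ => z ^ 2 / 2) y y := by
      have h := (hasDerivAt_pow 2 y).div_const 2
      have e : ((2 : ℕ) : ℝ) * y ^ (2 - 1) / 2 = y := by norm_num
      rw [e] at h
      exact h
    have h2 := (Real.hasDerivAt_log hy)
    have h3 := h1.mul h2
    have h4 : HasDerivAt (fun z : ℝ => 3 / 4 * z ^ 2) (3 / 2 * y) y := by
      have h := (hasDerivAt_pow 2 y).const_mul (3 / 4 : ℝ)
      have e : (3 / 4 : ℝ) * (((2 : ℕ) : ℝ) * y ^ (2 - 1)) = 3 / 2 * y := by norm_num; ring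
      rw [e] at h
      exact h
    have h5 := h3.sub h4
    have e : y * Real.log y + y ^ 2 / 2 * y⁻¹ - 3 / 2 * y = Psi y := by
      unfold Psi; field_simp; ring
    rw [e] at h5
    exact h5
  have hcG : Continuous G2 := by
    have : G2 = fun z => z / 2 * (z * Real.log z) - 3 / 4 * z ^ 2 := by
      funext z; unfold G2; ring
    rw [this]
    exact ((continuous_id.div_const 2).mul Real.continuous_mul_log).sub
      (continuous_const.mul (continuous_pow 2))
  have hcP : Continuous Psi := by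
    have : Psi = fun z => z * Real.log z - z := rfl
    rw [this]
    exact Real.continuous_mul_log.sub continuous_id
  by_cases h : z = 0
  · subst h
    exact hasDerivAt_of_hasDerivAt_of_ne hne hcG.continuousAt hcP.continuousAt
  · exact hne z h

lemma G2_step (z c W : ℝ) (hc : 0 < c) (hW : |z| + c ≤ W) (hW1 : 1 ≤ W) :
    |c * Psi z - (G2 (z + c) - G2 z)| ≤ c * (c * Real.log W + 2) := by
  obtain ⟨ξ, hξ, hs⟩ := exists_hasDerivAt_eq_slope G2 Psi (by linarith : z < z + c)
    (continuous_iff_continuousAt.2 (fun x => (G2_hasDerivAt x).continuousAt)).continuousOn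
    (fun x _ => G2_hasDerivAt x)
  rw [add_sub_cancel_left] at hs
  have h1 : G2 (z + c) - G2 z = c * Psi ξ := by rw [hs]; field_simp
  rw [h1, ← mul_sub, abs_mul, abs_of_pos hc]
  apply mul_le_mul_of_nonneg_left _ hc.le
  have h2 := abs_Psi_sub_le (x := ξ) (y := z) (W := W) hW1 (by
    rw [abs_le]
    have := neg_abs_le z
    have := le_abs_self z
    constructor <;> linarith [hξ.1, hξ.2]) (by linarith)
  have h3 : |z - ξ| ≤ c := by
    rw [abs_le]; constructor <;> linarith [hξ.1, hξ.2]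
  have h4 := Real.log_nonneg hW1
  have h5 : |z - ξ| * Real.log W ≤ c * Real.log W := mul_le_mul_of_nonneg_right h3 h4
  linarith

theorem outer (z : ℝ) (c : ℝ) (hc : 0 < c) (N : ℕ) (W : ℝ) (hW : |z| + c * N ≤ W) (hW1 : 1 ≤ W) :
    |∑ j ∈ range N, Psi (z + c * j) - (G2 (z + c * N) - G2 z) / c| ≤
      N * (c * Real.log W + 2) := by
  induction N with
  | zero => simp
  | succ N ih =>
    have ih' := ih (by push_cast at hW; linarith)
    rw [Finset.sum_range_succ]
    have hN : (0:ℝ) ≤ c * N := by positivity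
    have h1 := G2_step (z + c * N) c W hc (by
      have := abs_add_le z (c * N)
      rw [abs_of_nonneg hN] at this
      push_cast at hW
      linarith) hW1
    have h2 : |Psi (z + c * N) - (G2 (z + c * N + c) - G2 (z + c * N)) / c| ≤
        c * Real.log W + 2 := by
      have e : Psi (z + c * N) - (G2 (z + c * N + c) - G2 (z + c * N)) / c =
          (c * Psi (z + c * N) - (G2 (z + c * N + c) - G2 (z + c * N))) / c := by
        field_simp
      rw [e, abs_div, abs_of_pos hc, div_le_iff₀ hc]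
      linarith
    have e3 : z + c * ((N + 1 : ℕ) : ℝ) = z + c * N + c := by push_cast; ring
    rw [e3]
    have e4 : ∑ j ∈ range N, Psi (z + c * j) + Psi (z + c * N) - (G2 (z + c * N + c) - G2 z) / c =
        (∑ j ∈ range N, Psi (z + c * j) - (G2 (z + c * N) - G2 z) / c) +
        (Psi (z + c * N) - (G2 (z + c * N + c) - G2 (z + c * N)) / c) := by ring
    rw [e4]
    refine (abs_add_le _ _).trans ?_
    push_cast
    linarith

end

end Pool.Agent.H102R2.Z5
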