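import Mathlib

/-! Fekete / Lagrange bound for Hankel determinants (linear algebra only). -/

open Polynomial Matrix Finset

namespace Pool.Agent.H102R2.Z5

noncomputable section

variable {K : Type*} [Field K]

/-- `∏_{l ≠ k} (X - x_l)` -/
def PL {m : ℕ} (x : Fin m → K) (k : Fin m) : K[X] :=
  ∏ l ∈ Finset.univ.erase k, (X - C (x l))

lemma PL_natDegree {m : ℕ} (x : Fin m → K) (k : Fin m) : (PL x k).natDegree < m := by
  unfold PL
  rw [Polynomial.natDegree_prod_of_monic _ _ (fun i _ => Polynomial.monic_X_sub_C _)]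
  simp only [Polynomial.natDegree_X_sub_C, Finset.sum_const, smul_eq_mul, mul_one]
  rw [Finset.card_erase_of_mem (Finset.mem_univ _), Finset.card_univ, Fintype.card_fin]
  have := k.2
  omega

lemma PL_eval {m : ℕ} (x : Fin m → K) (k : Fin m) (y : K) :
    (PL x k).eval y = ∏ l ∈ Finset.univ.erase k, (y - x l) := by
  unfold PL
  rw [Polynomial.eval_prod]
  simp

lemma PL_eval_ne {m : ℕ} (x : Fin m → K) {k l : Fin m} (h : k ≠ l) :
    (PL x k).eval (x l) = 0 := by
  rw [PL_eval]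
  exact Finset.prod_eq_zero (Finset.mem_erase.2 ⟨h.symm, Finset.mem_univ _⟩) (sub_self _)

private lemma expand (m : ℕ) (P : K[X]) (h : P.natDegree < m) :
    P = ∑ k : Fin m, (P.coeff k) • (X ^ (k : ℕ) : K[X]) := by
  conv_lhs => rw [P.as_sum_range' m h]
  rw [Fin.sum_univ_eq_sum_range (fun k => (P.coeff k) • (X ^ k : K[X])) m]
  apply Finset.sum_congr rfl
  intro k _
  rw [← Polynomial.C_mul_X_pow_eq_monomial, Polynomial.smul_eq_C_mul]

private lemma gram (N : K[X] →ₗ[K] K) (m : ℕ) (P : Fin m → K[X])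
    (h : ∀ a, (P a).natDegree < m) :
    (Matrix.of fun a b : Fin m => N (P a * P b)) =
      (Matrix.of fun (a : Fin m) (k : Fin m) => (P a).coeff (k : ℕ)) *
        (Matrix.of fun i j : Fin m => N (X ^ (i.1 + j.1))) *
        (Matrix.of fun (a : Fin m) (k : Fin m) => (P a).coeff (k : ℕ)).transpose := by
  ext a b
  rw [Matrix.of_apply, Matrix.mul_apply]
  conv_lhs => rw [expand m (P a) (h a), expand m (P b) (h b), Finset.mul_sum, map_sum]
  apply Finset.sum_congr rfl
  intro l _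
  rw [Matrix.mul_apply, Matrix.transpose_apply, Matrix.of_apply, Finset.sum_mul, Finset.sum_mul,
    map_sum]
  apply Finset.sum_congr rfl
  intro k _
  rw [Matrix.of_apply, Matrix.of_apply, smul_mul_smul_comm, ← pow_add, map_smul, smul_eq_mul]
  ring

/-- `∏_k ∏_{l ≠ k} (x_k - x_l)^2 = (∏_{i<j} (x_j - x_i))^4` -/
private lemma prod_sq {m : ℕ} (x : Fin m → K) :
    (∏ k : Fin m, ∏ l ∈ Finset.univ.erase k, (x k - x l)) ^ 2 =
      (∏ i : Fin m, ∏ j ∈ Finset.Ioi i, (x j - x i)) ^ 4 := by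
  have h1 : (∏ k : Fin m, ∏ l ∈ Finset.univ.erase k, (x k - x l)) ^ 2 =
      ∏ k : Fin m, ∏ l ∈ Finset.univ.erase k, (x l - x k) ^ 2 := by
    rw [← Finset.prod_pow]
    apply Finset.prod_congr rfl; intro k _
    rw [← Finset.prod_pow]
    apply Finset.prod_congr rfl; intro l _
    ring
  have h2 : ∀ k : Fin m, ∏ l ∈ Finset.univ.erase k, (x l - x k) ^ 2 =
      (∏ l ∈ Finset.Ioi k, (x l - x k) ^ 2) * ∏ l ∈ Finset.Iio k, (x l - x k) ^ 2 := by
    intro k
    rw [← Finset.prod_union]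
    · congr 1
      ext l
      simp only [Finset.mem_erase, Finset.mem_univ, and_true, Finset.mem_union, Finset.mem_Ioi,
        Finset.mem_Iio]
      constructor
      · intro h
        rcases lt_trichotomy k l with h' | h' | h'
        · left; exact h'
        · exact absurd h'.symm h
        · right; exact h'
      · rintro (h | h)
        · exact ne_of_gt h
        · exact ne_of_lt h
    · rw [Finset.disjoint_left]
      intro l h3 h4
      rw [Finset.mem_Ioi] at h3
      rw [Finset.mem_Iio] at h4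
      exact absurd (lt_trans h3 h4) (lt_irrefl _)
  have h3 : ∏ k : Fin m, ∏ l ∈ Finset.Iio k, (x l - x k) ^ 2 =
      ∏ l : Fin m, ∏ k ∈ Finset.Ioi l, (x k - x l) ^ 2 := by
    rw [Finset.prod_comm' (t' := Finset.univ) (s' := fun l => Finset.Ioi l)]
    · apply Finset.prod_congr rfl; intro l _
      apply Finset.prod_congr rfl; intro k _
      ring
    · intro k l
      simp
  rw [h1]
  simp_rw [h2]
  rw [Finset.prod_mul_distrib, h3]
  simp_rw [Finset.prod_pow]
  ring

theorem fekete_det_eq (m : ℕ) (L : K[X] →ₗ[K] K) (x : Fin m → K) (hx : Function.Injective x) :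
    (Matrix.of fun k l : Fin m => L (PL x k * PL x l)).det =
      (∏ i : Fin m, ∏ j ∈ Finset.Ioi i, (x j - x i)) ^ 2 *
        (Matrix.of fun i j : Fin m => L (X ^ (i.1 + j.1))).det := by
  rw [gram L m (PL x) (PL_natDegree x), Matrix.det_mul, Matrix.det_mul, Matrix.det_transpose]
  set Cm := (Matrix.of fun (a : Fin m) (k : Fin m) => (PL x a).coeff (k : ℕ)) with hCm
  set V := ∏ i : Fin m, ∏ j ∈ Finset.Ioi i, (x j - x i) with hV
  have hV0 : V ≠ 0 := by
    rw [hV]
    rw [Finset.prod_ne_zero_iff]; intro i _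
    rw [Finset.prod_ne_zero_iff]; intro j hj
    rw [Finset.mem_Ioi] at hj
    exact sub_ne_zero.2 (fun h => absurd (hx h) (ne_of_gt hj))
  have h1 : Cm * (Matrix.vandermonde x).transpose =
      Matrix.diagonal (fun k => ∏ l ∈ Finset.univ.erase k, (x k - x l)) := by
    ext k l
    rw [Matrix.mul_apply]
    have h2 : ∑ j : Fin m, Cm k j * (Matrix.vandermonde x).transpose j l = (PL x k).eval (x l) := by
      rw [Polynomial.eval_eq_sum_range' (PL_natDegree x k)]
      rw [← Fin.sum_univ_eq_sum_range (fun i => (PL x k).coeff i * x l ^ i) m]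
      rfl
    rw [h2]
    by_cases h : k = l
    · subst h
      rw [Matrix.diagonal_apply_eq, PL_eval]
    · rw [Matrix.diagonal_apply_ne _ h, PL_eval_ne x h]
  have h2 : Cm.det * V = ∏ k : Fin m, ∏ l ∈ Finset.univ.erase k, (x k - x l) := by
    have := congrArg Matrix.det h1
    rw [Matrix.det_mul, Matrix.det_transpose, Matrix.det_vandermonde, Matrix.det_diagonal] at this
    exact this
  have h3 : Cm.det ^ 2 = V ^ 2 := by
    have h4 := prod_sq x
    rw [← h2, ← hV] at h4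
    have h5 : V ^ 2 * (Cm.det ^ 2 - V ^ 2) = 0 := by linear_combination h4
    rcases mul_eq_zero.1 h5 with h6 | h6
    · exact absurd h6 (pow_ne_zero 2 hV0)
    · exact sub_eq_zero.1 h6
  linear_combination (Matrix.of fun i j : Fin m => L (X ^ (i.1 + j.1))).det * h3

/-- `|∏_k ∏_{l ≠ k} (x_k - x_l)| = (∏_{i<j} (x_j - x_i))^2` -/
theorem prod_erase_eq_sq {m : ℕ} (x : Fin m → ℚ) :
    |∏ k : Fin m, ∏ l ∈ Finset.univ.erase k, (x k - x l)| =
      (∏ i : Fin m, ∏ j ∈ Finset.Ioi i, (x j - x i)) ^ 2 := by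
  have h := prod_sq x
  have h1 : |∏ k : Fin m, ∏ l ∈ Finset.univ.erase k, (x k - x l)| ^ 2 =
      ((∏ i : Fin m, ∏ j ∈ Finset.Ioi i, (x j - x i)) ^ 2) ^ 2 := by
    rw [sq_abs, h]; ring
  exact (pow_left_inj₀ (abs_nonneg _) (sq_nonneg _) two_ne_zero).1 h1

/-- the Leibniz bound -/
theorem det_le_of_entry {m : ℕ} (M : Matrix (Fin m) (Fin m) ℝ) (a : Fin m → ℝ)
    (h : ∀ k l, |M k l| ≤ a k * a l) :
    |M.det| ≤ (m.factorial : ℝ) * ∏ k, (a k) ^ 2 := by
  rw [Matrix.det_apply]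
  refine le_trans (Finset.abs_sum_le_sum_abs _ _) ?_
  have h1 : ∀ σ ∈ (Finset.univ : Finset (Equiv.Perm (Fin m))),
      |Equiv.Perm.sign σ • ∏ i, M (σ i) i| ≤ ∏ k, (a k) ^ 2 := by
    intro σ _
    have h2 : |Equiv.Perm.sign σ • ∏ i, M (σ i) i| = |∏ i, M (σ i) i| := by
      rcases Int.units_eq_one_or (Equiv.Perm.sign σ) with h | h <;> rw [h] <;> simp
    rw [h2, Finset.abs_prod]
    calc ∏ i, |M (σ i) i| ≤ ∏ i, (a (σ i) * a i) :=
          Finset.prod_le_prod (fun i _ => abs_nonneg _) (fun i _ => h _ _)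
      _ = ∏ k, (a k) ^ 2 := by
          rw [Finset.prod_mul_distrib, Equiv.prod_comp σ a, ← Finset.prod_mul_distrib]
          apply Finset.prod_congr rfl; intro i _; ring
  refine le_trans (Finset.sum_le_sum h1) ?_
  rw [Finset.sum_const, Finset.card_univ, Fintype.card_perm, Fintype.card_fin, nsmul_eq_mul]

/-- Fekete bound over the reals -/
theorem fekete_det (m : ℕ) (L : ℝ[X] →ₗ[ℝ] ℝ) (x : Fin m → ℝ) (hx : Function.Injective x)
    (a : Fin m → ℝ) (h : ∀ k l, |L (PL x k * PL x l)| ≤ a k * a l) :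
    |(Matrix.of fun i j : Fin m => L (X ^ (i.1 + j.1))).det| *
        (∏ i : Fin m, ∏ j ∈ Finset.Ioi i, (x j - x i)) ^ 2 ≤
      (m.factorial : ℝ) * ∏ k, (a k) ^ 2 := by
  have h1 := fekete_det_eq m L x hx
  have h2 := det_le_of_entry (Matrix.of fun k l : Fin m => L (PL x k * PL x l)) a
    (fun k l => by rw [Matrix.of_apply]; exact h k l)
  rw [h1, abs_mul, abs_of_nonneg (sq_nonneg _)] at h2
  linarith [mul_comm (|(Matrix.of fun i j : Fin m => L (X ^ (i.1 + j.1))).det|)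
    ((∏ i : Fin m, ∏ j ∈ Finset.Ioi i, (x j - x i)) ^ 2)]

/-- Fekete bound, rational functional and rational nodes -/
theorem fekete_det_rat (m : ℕ) (L : ℚ[X] →ₗ[ℚ] ℚ) (x : Fin m → ℚ) (hx : Function.Injective x)
    (a : Fin m → ℝ) (h : ∀ k l, |((L (PL x k * PL x l) : ℚ) : ℝ)| ≤ a k * a l) :
    |(((Matrix.of fun i j : Fin m => L (X ^ (i.1 + j.1))).det : ℚ) : ℝ)| *
        (∏ i : Fin m, ∏ j ∈ Finset.Ioi i, ((x j : ℝ) - (x i : ℝ))) ^ 2 ≤
      (m.factorial : ℝ) * ∏ k, (a k) ^ 2 := by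
  have h1 := fekete_det_eq m L x hx
  have h3 : ((((Matrix.of fun k l : Fin m => L (PL x k * PL x l)).det : ℚ)) : ℝ) =
      (Matrix.of fun k l : Fin m => ((L (PL x k * PL x l) : ℚ) : ℝ)).det := by
    have := RingHom.map_det (algebraMap ℚ ℝ) (Matrix.of fun k l : Fin m => L (PL x k * PL x l))
    rw [eq_ratCast] at this
    rw [this]
    congr 1
  have h2 := det_le_of_entry (Matrix.of fun k l : Fin m => ((L (PL x k * PL x l) : ℚ) : ℝ)) a
    (fun k l => by rw [Matrix.of_apply]; exact h k l)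
  rw [← h3, h1, Rat.cast_mul, abs_mul] at h2
  have h4 : |((((∏ i : Fin m, ∏ j ∈ Finset.Ioi i, (x j - x i)) ^ 2 : ℚ)) : ℝ)| =
      (∏ i : Fin m, ∏ j ∈ Finset.Ioi i, ((x j : ℝ) - (x i : ℝ))) ^ 2 := by
    push_cast
    exact abs_of_nonneg (sq_nonneg _)
  rw [h4, mul_comm] at h2
  exact h2

end

end Pool.Agent.H102R2.Z5
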